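import Pool.Agent.Helper5.FRC.GoalsG
import Pool.Agent.Helper98.FRC.IND

/-!
# Project FRC (MP_79b960_co), packet INDG
-/

set_option autoImplicit false

namespace Pool.Agent.Helper44.FRC.INDG

open Finset Pool.Agent.Helper5.FRC
open Pool.Agent.Helper98.FRC.IND (inv_sdiff cir_disj even_card decomp enum par)

variable {V : Type} [Fintype V] [DecidableEq V]

open Classical in
theorem sum_step {n : Equiv.Perm V} {A Z : Finset V} (hZA : Z ⊆ A) (hZ : Cir n Z)
    (hZe : Even Z.card) (f : Finset V → ℕ) :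
    ∑ C ∈ A.powerset.filter (fun C => Cir n C ∧ Even C.card), f C =
      f Z + ∑ C ∈ (A \ Z).powerset.filter (fun C => Cir n C ∧ Even C.card), f C := by
  have hnot : Z ∉ (A \ Z).powerset.filter (fun C => Cir n C ∧ Even C.card) := by
    intro h
    obtain ⟨x, hx⟩ := hZ.1
    have h1 := (mem_powerset.1 (mem_filter.1 h).1) hx
    exact (mem_sdiff.1 h1).2 hx
  rw [← sum_insert hnot]
  refine sum_congr ?_ fun _ _ => rfl
  ext C
  rw [mem_filter, mem_insert, mem_filter, mem_powerset, mem_powerset]
  constructor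
  · rintro ⟨h1, h2, h3⟩
    by_cases h : C = Z
    · exact Or.inl h
    · refine Or.inr ⟨?_, h2, h3⟩
      intro x hx
      exact mem_sdiff.2 ⟨h1 hx, disjoint_left.1 (cir_disj h2 hZ h) hx⟩
  · rintro (rfl | ⟨h1, h2, h3⟩)
    · exact ⟨hZA, hZ, hZe⟩
    · exact ⟨h1.trans sdiff_subset, h2, h3⟩

theorem bc_of_bl {n : Equiv.Perm V} {A : Finset V} {t : V → V} {l : ℕ} (hl : 3 ≤ l)
    (h : Bl n A t l) : Bc n A t := by
  intro S hS hi ho h1
  have := h S hS hi ho
  omega

theorem t (h1 : DisgStmt) (h2 : ExtgStmt) (h3 : TwoStmt) (h4 : FourStmt) : IndgStmt := by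
  intro V _ _ n A t
  induction hk : A.card using Nat.strong_induction_on generalizing A t with
  | _ k ih =>
    intro hn hA ht hB hFc
    by_cases hex : ∃ Z ⊆ A, Cir n Z ∧ Even Z.card
    · obtain ⟨Z, hZA, hZ, hZe⟩ := hex
      rw [sum_step hZA hZ hZe, mul_add, add_comm (2 * ((Z.card - 2) / 4)), ← add_assoc] at hB
      obtain ⟨p, t', hp, hpn, ht', hcl, hcu, hB'⟩ := h1 V n A Z t _ hA ht
        (Odd.add_even (by decide) (even_two_mul _)) hB hZA hZ hZe
      refine h2 V n A Z t p t' hA ht hZA hZ hZe hp hpn ht' hcl hcu ?_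
      have hlt : (A \ Z).card < k := by
        rw [← hk, card_sdiff_of_subset hZA]
        have := card_le_card hZA
        have := card_pos.2 hZ.1
        omega
      exact ih _ hlt (A \ Z) t' rfl hn (inv_sdiff hA hZ.2.1) ht' hB' fun F hF =>
        hFc F fun C hC => ⟨(hF C hC).1.trans sdiff_subset, (hF C hC).2⟩
    · have hBc : Bc n A t := bc_of_bl (Nat.le_add_right _ _) hB
      have ho : ∀ C ⊆ A, Cir n C → Odd C.card := by
        intro C hC hCc
        by_contra h
        exact hex ⟨C, hC, hCc, Nat.not_odd_iff_even.1 h⟩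
      obtain ⟨F, hF, hU⟩ := decomp hA
      have hc : F.card ≤ 4 := hFc F fun C hC =>
        ⟨((hF C).1 hC).1, ((hF C).1 hC).2, ho C ((hF C).1 hC).1 ((hF C).1 hC).2⟩
      have he := par hF hU ho (even_card ht)
      have hcases : F.card = 0 ∨ F.card = 2 ∨ F.card = 4 := by
        obtain ⟨m, hm⟩ := he
        omega
      rcases hcases with h | h | h
      · have hF0 : F = ∅ := card_eq_zero.1 h
        have hA0 : A = ∅ := by rw [hU, hF0, biUnion_empty]
        subst hA0
        refine ⟨id, ∅, Subset.refl _, ?_, ?_, ?_, ?_, ?_⟩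
        · intro v hv
          exact absurd hv (notMem_empty v)
        · intro v hv
          exact absurd hv (notMem_empty v)
        · intro v hv
          exact absurd hv (notMem_empty v)
        · simp
        · intro S hS _ hSo
          rw [subset_empty.1 hS] at hSo
          simp at hSo
      · obtain ⟨C, c1, c2, c3, c4⟩ := enum hF hU ho 2 h
        exact h3 V n A t C hn ht hBc c1 c2 c3 c4
      · obtain ⟨C, c1, c2, c3, c4⟩ := enum hF hU ho 4 h
        exact h4 V n A t C hn ht hBc c1 c2 c3 c4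

end Pool.Agent.Helper44.FRC.INDG
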